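import Mathlib
import Pool.Agent.R317.Tmf

set_option autoImplicit false

/-- The Thue-Morse twisted Fibonacci sequence `h` satisfies `h_{2^{2n}-3} ∣ h_{2(2^{2n}-3)}`
for every `n ≥ 1`. -/
theorem Pool.Agent.Results.MP_36a07b_nt.Divides.result (h : ℕ → ℤ) (h0 : h 0 = 0) (h1 : h 1 = 1)
    (hrec : ∀ n, h (n + 2) = (-1) ^ (Nat.digits 2 (n + 2)).sum * h (n + 1) + h n) (n : ℕ)
    (hn : 1 ≤ n) : h (2 ^ (2 * n) - 3) ∣ h (2 * (2 ^ (2 * n) - 3)) := by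
  rw [Pool.Agent.R317.Tmf.eq_h h h0 h1 hrec, Pool.Agent.R317.Tmf.eq_h h h0 h1 hrec]
  rcases Nat.lt_or_ge n 2 with h2 | h2
  · have : n = 1 := by omega
    subst this
    exact ⟨_, (one_mul _).symm⟩
  · exact Pool.Agent.R317.Tmf.even_case (2 * n) (by omega) ⟨n, by ring⟩
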