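import Mathlib
import Pool.Agent.R317.Tmf

set_option autoImplicit false

/-- The Thue-Morse twisted Fibonacci sequence `h` satisfies
`h_{2(2^k-3)} ≡ -2 (mod h_{2^k-3})` for every odd `k ≥ 3`. -/
theorem Pool.Agent.Results.MP_36a07b_nt.MinusTwo.result (h : ℕ → ℤ) (h0 : h 0 = 0) (h1 : h 1 = 1)
    (hrec : ∀ n, h (n + 2) = (-1) ^ (Nat.digits 2 (n + 2)).sum * h (n + 1) + h n) (k : ℕ)
    (hk : 3 ≤ k) (hodd : Odd k) : h (2 ^ k - 3) ∣ h (2 * (2 ^ k - 3)) + 2 := by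
  rw [Pool.Agent.R317.Tmf.eq_h h h0 h1 hrec, Pool.Agent.R317.Tmf.eq_h h h0 h1 hrec]
  exact Pool.Agent.R317.Tmf.odd_case k hk hodd
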